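import Pool.Agent.H25.H7

set_option autoImplicit false

namespace Pool.Agent.Results.MP_295a7b_co.Counter

theorem result (n : ℕ) (hn : (0 < n ∧ 7 ∣ n) ∨ 300 ≤ n) :
    ∃ E : Finset (Finset (Fin (3 * n))), (∀ e ∈ E, e.card = 3) ∧ E.card = n ^ 3 + 1 ∧
      ∀ S : Finset (Fin (3 * n)), S.card = 9 → (E.filter (· ⊆ S)).card ≤ 27 := by
  open Pool.Agent.H25.H7 in
  obtain ⟨k, hk, hk2⟩ : ∃ k, 7 * k ≤ 3 * n ∧ n ^ 3 + 1 ≤ 13 * k ^ 3 := by
    rcases hn with ⟨h0, m, rfl⟩ | h
    · refine ⟨3 * m, by omega, ?_⟩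
      have : 0 < m ^ 3 := pow_pos (by omega) 3
      nlinarith
    · refine ⟨3 * n / 7, by omega, ?_⟩
      have h1 : 149 * n ≤ 350 * (3 * n / 7) := by omega
      have h2 := Nat.pow_le_pow_left h1 3
      have h3 : 300 ^ 3 ≤ n ^ 3 := Nat.pow_le_pow_left h 3
      rw [mul_pow, mul_pow] at h2
      omega
  let c : Fin (3 * n) → Fin 8 := fun x => ⟨x % 7, by omega⟩
  have hw : ∀ i : Fin 8, i.1 < 7 → k ≤ Pool.Agent.H25.H7.wt c Finset.univ i := by
    intro i hi
    have := Finset.card_le_card_of_injOn (s := (Finset.univ : Finset (Fin k)))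
      (t := Finset.univ.filter fun x => c x = i)
      (fun j : Fin k => (⟨7 * j + i, by omega⟩ : Fin (3 * n)))
      (fun j _ => by
        simp only [Finset.coe_filter, Finset.mem_univ, true_and, Set.mem_ofPred_eq, c]
        ext; simp only; omega)
      (fun a _ b _ h => by
        simp only [Fin.mk.injEq] at h
        ext; omega)
    simpa [Pool.Agent.H25.H7.wt] using this
  have hc : n ^ 3 + 1 ≤
      ((Pool.Agent.H25.H7.P c Finset.univ).image Pool.Agent.H25.H7.f).card := by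
    rw [Finset.card_image_of_injOn (Pool.Agent.H25.H7.f_inj c _), Pool.Agent.H25.H7.card_P]
    refine hk2.trans ?_
    have : ∀ t ∈ Pool.Agent.H25.H7.L, t.2.2.1 < 7 := by decide +kernel
    have h13 : Pool.Agent.H25.H7.L.card = 13 := by decide +kernel
    rw [← h13, ← smul_eq_mul]
    refine Finset.card_nsmul_le_sum _ _ _ fun t ht => ?_
    have h1 := this t ht
    have h2 := Pool.Agent.H25.H7.L_lt t ht
    rw [show k ^ 3 = k * k * k by ring]
    exact Nat.mul_le_mul (Nat.mul_le_mul (hw _ (by omega)) (hw _ (by omega))) (hw _ h1)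
  obtain ⟨E, hE, hcard⟩ := Finset.exists_subset_card_eq hc
  refine ⟨E, fun e he => ?_, hcard, fun S hS => ?_⟩
  · obtain ⟨p, hp, rfl⟩ := Finset.mem_image.1 (hE he)
    exact Pool.Agent.H25.H7.f_card c hp
  · exact (Finset.card_le_card (Finset.filter_subset_filter _ hE)).trans
      (Pool.Agent.H25.H7.upper c S hS)

end Pool.Agent.Results.MP_295a7b_co.Counter
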